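import Mathlib

/-!
# TH: the backward dynamics of `(3/2)^n` modulo 1

If `J` is a closed subset of the circle which is disjoint from its translate by `1/3`, then the backward
map is a local contraction on `J`.
-/

set_option autoImplicit false

namespace Pool.Agent.Helper3.TH

/-- `(3/2)^n` modulo 1 -/
noncomputable def pw (n : ℕ) : UnitAddCircle := (((3 / 2 : ℝ) ^ n : ℝ) : UnitAddCircle)

theorem pw_succ (n : ℕ) : (2 : ℤ) • pw (n + 1) = (3 : ℤ) • pw n := by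
  unfold pw
  rw [← AddCircle.coe_zsmul, ← AddCircle.coe_zsmul]
  congr 1
  rw [pow_succ]
  simp only [zsmul_eq_mul]
  push_cast
  ring

theorem exists_lift (x : UnitAddCircle) : ∃ e : ℝ, (e : UnitAddCircle) = x ∧ |e| = ‖x‖ := by
  induction x using QuotientAddGroup.induction_on with
  | H r =>
    refine ⟨r - round r, ?_, (UnitAddCircle.norm_eq).symm⟩
    rw [AddCircle.coe_sub]
    have h : ((round r : ℝ) : UnitAddCircle) = 0 := by
      rw [AddCircle.coe_eq_zero_iff]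
      exact ⟨round r, by simp⟩
    rw [h, sub_zero]

theorem norm_le_abs (e : ℝ) : ‖(e : UnitAddCircle)‖ ≤ |e| := by
  rw [UnitAddCircle.norm_eq]
  have := round_le e 0
  simpa using this

theorem coe_third (j : ℤ) (h : ¬ (3 : ℤ) ∣ j) :
    ((((j : ℝ) / 3 : ℝ)) : UnitAddCircle) = ((1 / 3 : ℝ) : UnitAddCircle) ∨
    ((((j : ℝ) / 3 : ℝ)) : UnitAddCircle) = -((1 / 3 : ℝ) : UnitAddCircle) := by
  have h1 : j % 3 = 1 ∨ j % 3 = 2 := by omega
  have h2 : j = 3 * (j / 3) + j % 3 := by omega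
  rcases h1 with h1 | h1
  · left
    rw [h1] at h2
    rw [← sub_eq_zero, ← AddCircle.coe_sub, AddCircle.coe_eq_zero_iff]
    refine ⟨j / 3, ?_⟩
    have h3 : (j : ℝ) = 3 * ((j / 3 : ℤ) : ℝ) + 1 := by exact_mod_cast h2
    rw [h3]
    simp only [zsmul_eq_mul, mul_one]
    ring
  · right
    rw [h1] at h2
    rw [← sub_eq_zero, sub_neg_eq_add, ← AddCircle.coe_add, AddCircle.coe_eq_zero_iff]
    refine ⟨j / 3 + 1, ?_⟩
    have h3 : (j : ℝ) = 3 * ((j / 3 : ℤ) : ℝ) + 2 := by exact_mod_cast h2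
    rw [h3]
    simp only [zsmul_eq_mul, mul_one]
    push_cast
    ring

set_option maxHeartbeats 400000 in
theorem gap (J : Set UnitAddCircle) (hJ : IsClosed J)
    (h : ∀ x ∈ J, x + ((1 / 3 : ℝ) : UnitAddCircle) ∉ J) :
    ∃ δ : ℝ, 0 < δ ∧ ∀ x ∈ J, ∀ y ∈ J, ∀ j : ℤ, ¬ (3 : ℤ) ∣ j →
      δ ≤ ‖x - y - (((j : ℝ) / 3 : ℝ) : UnitAddCircle)‖ := by
  have hc : IsCompact J := hJ.isCompact
  have hc2 : IsCompact (J ×ˢ J) := hc.prod hc
  have key : ∃ δ : ℝ, 0 < δ ∧ ∀ x ∈ J, ∀ y ∈ J,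
      δ ≤ ‖x - y - ((1 / 3 : ℝ) : UnitAddCircle)‖ := by
    rcases (J ×ˢ J).eq_empty_or_nonempty with he | hne
    · refine ⟨1, one_pos, fun x hx y hy => ?_⟩
      have : (x, y) ∈ J ×ˢ J := ⟨hx, hy⟩
      rw [he] at this
      exact absurd this (Set.notMem_empty _)
    · obtain ⟨z, hz, hmin⟩ := hc2.exists_isMinOn hne
        (f := fun z : UnitAddCircle × UnitAddCircle =>
          ‖z.1 - z.2 - ((1 / 3 : ℝ) : UnitAddCircle)‖) (by fun_prop)
      refine ⟨‖z.1 - z.2 - ((1 / 3 : ℝ) : UnitAddCircle)‖, ?_, fun x hx y hy => ?_⟩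
      · rw [norm_pos_iff]
        intro h0
        apply h z.2 hz.2
        have : z.2 + ((1 / 3 : ℝ) : UnitAddCircle) = z.1 := by
          rw [sub_sub, sub_eq_zero] at h0
          exact h0.symm
        rw [this]
        exact hz.1
      · have h5 := isMinOn_iff.1 hmin (x, y) ⟨hx, hy⟩
        simpa only using h5
  obtain ⟨δ, hδ, hk⟩ := key
  refine ⟨δ, hδ, fun x hx y hy j hj => ?_⟩
  rcases coe_third j hj with h1 | h1
  · rw [h1]
    exact hk x hx y hy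
  · rw [h1, ← norm_neg]
    have : -(x - y - -((1 / 3 : ℝ) : UnitAddCircle)) = y - x - ((1 / 3 : ℝ) : UnitAddCircle) := by
      abel
    rw [this]
    exact hk y hy x hx

theorem step {δ : ℝ} {x y x' y' : UnitAddCircle} (hx : (2 : ℤ) • x' = (3 : ℤ) • x)
    (hy : (2 : ℤ) • y' = (3 : ℤ) • y)
    (hg : ∀ j : ℤ, ¬ (3 : ℤ) ∣ j → δ ≤ ‖x - y - (((j : ℝ) / 3 : ℝ) : UnitAddCircle)‖)
    (h : ‖x' - y'‖ < δ) : ‖x - y‖ ≤ 2 / 3 * ‖x' - y'‖ := by
  obtain ⟨e, he, hea⟩ := exists_lift (x' - y')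
  obtain ⟨r, hr, -⟩ := exists_lift (x - y)
  have h1 : (2 : ℤ) • (x' - y') = (3 : ℤ) • (x - y) := by
    rw [smul_sub, smul_sub, hx, hy]
  rw [← he, ← hr, ← AddCircle.coe_zsmul, ← AddCircle.coe_zsmul, ← sub_eq_zero,
    ← AddCircle.coe_sub, AddCircle.coe_eq_zero_iff] at h1
  obtain ⟨k, hk⟩ := h1
  simp only [zsmul_eq_mul, mul_one] at hk
  push_cast at hk
  have h2 : r = 2 / 3 * e + ((-k : ℤ) : ℝ) / 3 := by
    push_cast
    linarith
  have h3 : ‖((2 / 3 * e : ℝ) : UnitAddCircle)‖ ≤ 2 / 3 * ‖x' - y'‖ := by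
    rw [← hea]
    refine (norm_le_abs _).trans ?_
    rw [abs_mul, abs_of_pos (by norm_num : (0 : ℝ) < 2 / 3)]
  by_cases h4 : (3 : ℤ) ∣ -k
  · obtain ⟨l, hl⟩ := h4
    have h5 : (r : UnitAddCircle) = ((2 / 3 * e : ℝ) : UnitAddCircle) := by
      rw [← sub_eq_zero, ← AddCircle.coe_sub, AddCircle.coe_eq_zero_iff]
      refine ⟨l, ?_⟩
      rw [h2, hl]
      simp only [zsmul_eq_mul, mul_one]
      push_cast
      ring
    rw [← hr, h5]
    exact h3
  · exfalso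
    have h5 := hg (-k) h4
    rw [← hr, ← AddCircle.coe_sub] at h5
    have h6 : r - ((-k : ℤ) : ℝ) / 3 = 2 / 3 * e := by rw [h2]; ring
    rw [h6] at h5
    have h7 : 0 ≤ ‖x' - y'‖ := norm_nonneg _
    linarith

end Pool.Agent.Helper3.TH
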