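import Mathlib
import Pool.Agent.Helper42.RD.Final
import Pool.Agent.Helper3.TH.Back

/-!
# TH: `(3/2)^M` and `(3/2)^(M+m)` are not very close modulo 1 (from Ridout's theorem)
-/

set_option autoImplicit false

namespace Pool.Agent.Helper3.TH

open Pool.Agent.Helper42.RD

theorem near (c : ℝ) (hc : 0 < c) (K : ℕ) : ∃ M0 : ℕ, ∀ M : ℕ, M0 ≤ M → ∀ m : ℕ, 1 ≤ m → m ≤ K →
    (2 / 3 : ℝ) ^ (c * M) ≤ ‖pw (M + m) - pw M‖ := by
  have hl3 : 0 < Real.log 3 := Real.log_pos (by norm_num)
  have hl2 : 0 < Real.log 2 := Real.log_pos (by norm_num)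
  have hlam : 0 < Real.log (3 / 2) := Real.log_pos (by norm_num)
  set lam := Real.log (3 / 2) with hlamdef
  set η : ℝ := c * lam / (2 * Real.log 3) with hη
  have hη0 : 0 < η := by positivity
  have hη1 : η * Real.log 3 = c * lam / 2 := by
    rw [hη]; field_simp
  obtain ⟨Q0, hQ0⟩ := ridout η hη0
  set C : ℝ := (1 + η) * (Real.log 2 + K * Real.log 3) with hC
  obtain ⟨M1, hM1⟩ := exists_nat_gt (2 * C / (c * lam))
  obtain ⟨M2, hM2⟩ := exists_nat_gt Q0
  refine ⟨max (max M1 M2) 2, fun M hM m hm hmK => ?_⟩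
  have hMM1 : M1 ≤ M := le_trans (le_trans (le_max_left _ _) (le_max_left _ _)) hM
  have hMM2 : M2 ≤ M := le_trans (le_trans (le_max_right _ _) (le_max_left _ _)) hM
  have hM2' : 2 ≤ M := le_trans (le_max_right _ _) hM
  by_contra hcon
  push Not at hcon
  have hr : pw (M + m) - pw M = (((3 / 2 : ℝ) ^ (M + m) - (3 / 2 : ℝ) ^ M : ℝ) : UnitAddCircle) := by
    unfold pw
    rw [AddCircle.coe_sub]
  rw [hr, UnitAddCircle.norm_eq] at hcon
  set v : ℝ := (3 / 2 : ℝ) ^ (M + m) - (3 / 2 : ℝ) ^ M with hv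
  set N : ℤ := round v with hN
  set x : ℤ := 3 ^ M * (3 ^ m - 2 ^ m) with hx
  set y : ℤ := 2 ^ (M + m) * N with hy
  have h2pos : (0 : ℝ) < 2 ^ (M + m) := by positivity
  have hxv : (x : ℝ) = 2 ^ (M + m) * v := by
    rw [hx, hv, div_pow, div_pow, pow_add, pow_add]
    push_cast
    field_simp
  have hxy : (x : ℝ) - y = 2 ^ (M + m) * (v - N) := by
    rw [hxv, hy]; push_cast; ring
  have h1 : (1 : ℤ) ≤ 3 ^ m - 2 ^ m := by
    have : (2 : ℤ) ^ m < 3 ^ m := pow_lt_pow_left₀ (by norm_num) (by norm_num) (by omega)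
    omega
  have hxodd : Odd x := by
    rw [hx]
    refine Odd.mul (Odd.pow (by decide)) ?_
    have : Odd ((3 : ℤ) ^ m) := Odd.pow (by decide)
    refine this.sub_even ?_
    exact (by decide : Even (2 : ℤ)).pow_of_ne_zero (by omega)
  have hyeven : Even y := by
    rw [hy]
    exact ((by decide : Even (2 : ℤ)).pow_of_ne_zero (by omega)).mul_right _
  have hne : x ≠ y := by
    intro h
    rw [h] at hxodd
    exact (Int.not_even_iff_odd.2 hxodd) hyeven
  have hx1 : (3 : ℤ) ^ M ≤ x := by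
    rw [hx]
    have : (0 : ℤ) < 3 ^ M := by positivity
    nlinarith
  have hx0 : x ≠ 0 := by
    have : (0 : ℤ) < 3 ^ M := by positivity
    omega
  have hvlow : (1 : ℝ) < v := by
    rw [hv, pow_add]
    have h3 : (3 / 2 : ℝ) ^ 2 ≤ (3 / 2 : ℝ) ^ M := pow_le_pow_right₀ (by norm_num) hM2'
    have h4 : (3 / 2 : ℝ) ^ 1 ≤ (3 / 2 : ℝ) ^ m := pow_le_pow_right₀ (by norm_num) hm
    nlinarith
  have hNv : |v - N| ≤ 1 / 2 := abs_sub_round v
  have hN0 : N ≠ 0 := by
    intro h
    rw [h] at hNv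
    rw [Int.cast_zero, sub_zero, abs_of_pos (by linarith)] at hNv
    linarith
  have hy0 : y ≠ 0 := by
    rw [hy]
    exact mul_ne_zero (by positivity) hN0
  have hxR : (3 : ℝ) ^ M ≤ |(x : ℝ)| := by
    have h3 : ((3 : ℤ) ^ M : ℝ) ≤ x := by exact_mod_cast hx1
    have h4 : (3 : ℝ) ^ M ≤ x := by exact_mod_cast hx1
    exact h4.trans (le_abs_self _)
  have hMR : (M : ℝ) ≤ 3 ^ M := by
    have : M < 3 ^ M := Nat.lt_pow_self (by norm_num)
    exact_mod_cast this.le
  have hht : Q0 ≤ ht x y := by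
    have h3 : (M2 : ℝ) ≤ M := by exact_mod_cast hMM2
    calc Q0 ≤ M2 := hM2.le
      _ ≤ M := h3
      _ ≤ 3 ^ M := hMR
      _ ≤ |(x : ℝ)| := hxR
      _ ≤ ht x y := le_max_left _ _
  have hrid := hQ0 x y M (M + m) hx0 hy0 hne (Dvd.intro _ rfl) (Dvd.intro _ rfl) hht
  have hht1 : ht x y ≤ 2 * 3 ^ (M + m) := by
    have h3 : |(x : ℝ)| ≤ 3 ^ (M + m) := by
      rw [abs_of_pos (by have : (0 : ℝ) < 3 ^ M := by positivity
                         have h4 : (3 : ℝ) ^ M ≤ x := by exact_mod_cast hx1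
                         linarith), hx]
      push_cast
      rw [pow_add]
      have h5 : (0 : ℝ) < 2 ^ m := by positivity
      have h6 : (0 : ℝ) < 3 ^ M := by positivity
      nlinarith
    have h4 : |(x : ℝ) - y| ≤ 3 ^ (M + m) := by
      rw [hxy, abs_mul, abs_of_pos h2pos]
      have h5 : (2 : ℝ) ^ (M + m) ≤ 3 ^ (M + m) := pow_le_pow_left₀ (by norm_num) (by norm_num) _
      nlinarith [abs_nonneg (v - N)]
    have h5 : |(y : ℝ)| ≤ |(x : ℝ)| + |(x : ℝ) - y| := by
      have := abs_sub_abs_le_abs_sub (y : ℝ) x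
      rw [abs_sub_comm] at this
      linarith
    exact max_le (by have := abs_nonneg ((x : ℝ) - y); have : (0:ℝ) < 3 ^ (M + m) := by positivity
                     linarith) (by linarith)
  have hht0 : 0 < ht x y := lt_of_lt_of_le (by positivity) (hxR.trans (le_max_left _ _))
  have hdpos : 0 < |(x : ℝ) - y| := by
    rw [abs_pos, sub_ne_zero]
    exact_mod_cast hne
  -- logarithms
  have hlog1 := Real.log_le_log (by positivity) hrid
  rw [Real.log_mul (by positivity) (by positivity), Real.log_pow, Real.log_pow,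
    Real.log_mul hdpos.ne' (by positivity), Real.log_rpow hht0] at hlog1
  have hlog2 : Real.log |(x : ℝ) - y| < (M + m) * Real.log 2 - c * M * lam := by
    have h3 : |(x : ℝ) - y| < 2 ^ (M + m) * (2 / 3 : ℝ) ^ (c * M) := by
      rw [hxy, abs_mul, abs_of_pos h2pos]
      exact mul_lt_mul_of_pos_left hcon h2pos
    have h4 := Real.log_lt_log hdpos h3
    rw [Real.log_mul (by positivity) (by positivity), Real.log_pow, Real.log_rpow (by norm_num)] at h4
    have h5 : Real.log (2 / 3) = - lam := by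
      rw [hlamdef, ← Real.log_inv]
      norm_num
    rw [h5] at h4
    push_cast at h4
    linarith
  have hlog3 : Real.log (ht x y) ≤ Real.log 2 + (M + K) * Real.log 3 := by
    have h3 := Real.log_le_log hht0 hht1
    rw [Real.log_mul (by norm_num) (by positivity), Real.log_pow] at h3
    have h4 : ((M + m : ℕ) : ℝ) ≤ M + K := by
      push_cast
      have : (m : ℝ) ≤ K := by exact_mod_cast hmK
      linarith
    nlinarith
  have h6 : (1 + η) * Real.log (ht x y) ≤ (1 + η) * (Real.log 2 + (M + K) * Real.log 3) :=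
    mul_le_mul_of_nonneg_left hlog3 (by linarith)
  push_cast at hlog1
  have h7 : (M : ℝ) * (c * lam / 2) < C := by
    have h8 : (1 + η) * (Real.log 2 + (M + K) * Real.log 3) =
        C + M * Real.log 3 + M * (η * Real.log 3) := by
      rw [hC]; ring
    rw [h8, hη1] at h6
    linarith
  have h9 : 2 * C / (c * lam) < M := lt_of_lt_of_le hM1 (by exact_mod_cast hMM1)
  rw [div_lt_iff₀ (by positivity)] at h9
  linarith

end Pool.Agent.Helper3.TH
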