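import Mathlib
import Pool.Agent.Helper3.TH.Near

/-!
# TH: the windows theorem and the accumulation points
-/

set_option autoImplicit false

namespace Pool.Agent.Helper3.TH

/-- among many points of the circle two are close -/
theorem pigeon (δ : ℝ) (hδ : 0 < δ) : ∃ L : ℕ, ∀ f : ℕ → UnitAddCircle, ∃ i j : ℕ, i < j ∧ j ≤ L ∧
    ‖f i - f j‖ < δ := by
  obtain ⟨K, hK⟩ := exists_nat_gt (1 / δ)
  have hK0 : (0 : ℝ) < K := lt_trans (by positivity) hK
  refine ⟨2 * K + 1, fun f => ?_⟩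
  choose e he hea using fun i => exists_lift (f i)
  have hb : ∀ i, |e i| ≤ 1 / 2 := fun i => by
    rw [hea]
    have := AddCircle.norm_le_half_period (1 : ℝ) (x := f i) one_ne_zero
    simpa using this
  have hmaps : ∀ i ∈ Finset.range (2 * K + 2), ⌊(K : ℝ) * e i⌋ ∈ Finset.Icc (-(K : ℤ)) K := by
    intro i _
    have h1 := abs_le.1 (hb i)
    rw [Finset.mem_Icc]
    constructor
    · rw [Int.le_floor]
      push_cast
      nlinarith
    · have h2 : ⌊(K : ℝ) * e i⌋ ≤ ⌊(K : ℝ)⌋ := Int.floor_le_floor (by nlinarith)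
      rwa [Int.floor_natCast] at h2
  obtain ⟨i, hi, j, hj, hne, hfl⟩ := Finset.exists_ne_map_eq_of_card_lt_of_maps_to (by
    rw [Int.card_Icc, Finset.card_range]; omega) hmaps
  have hclose : ∀ i j : ℕ, ⌊(K : ℝ) * e i⌋ = ⌊(K : ℝ) * e j⌋ → ‖f i - f j‖ < δ := by
    intro i j h
    have h1 := Int.abs_sub_lt_one_of_floor_eq_floor h
    rw [← mul_sub, abs_mul, abs_of_pos hK0] at h1
    have h2 : |e i - e j| < δ := by
      have h3 : 1 < K * δ := by
        rw [div_lt_iff₀ hδ] at hK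
        exact hK
      by_contra h4
      push Not at h4
      nlinarith
    rw [← he i, ← he j, ← AddCircle.coe_sub]
    exact lt_of_le_of_lt (norm_le_abs _) h2
  rw [Finset.mem_range] at hi hj
  rcases lt_or_gt_of_ne hne with h | h
  · exact ⟨i, j, h, by omega, hclose i j hfl⟩
  · exact ⟨j, i, h, by omega, hclose j i hfl.symm⟩

theorem windows (J : Set UnitAddCircle) (hJ : IsClosed J)
    (h : ∀ x ∈ J, x + ((1 / 3 : ℝ) : UnitAddCircle) ∉ J) (c : ℝ) (hc : 0 < c) :
    ∃ M0 : ℕ, ∀ M : ℕ, M0 ≤ M → ∃ n : ℕ, M ≤ n ∧ (n : ℝ) ≤ (1 + c) * M ∧ pw n ∉ J := by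
  obtain ⟨δ, hδ, hgap⟩ := gap J hJ h
  obtain ⟨L, hL⟩ := pigeon δ hδ
  obtain ⟨M1, hM1⟩ := near (c / 2) (by positivity) L
  obtain ⟨M2, hM2⟩ := exists_nat_gt (2 * ((L : ℝ) + 2) / c)
  refine ⟨max M1 M2, fun M hM => ?_⟩
  by_contra hcon
  push Not at hcon
  have hMM1 : M1 ≤ M := (le_max_left _ _).trans hM
  have hMM2 : M2 ≤ M := (le_max_right _ _).trans hM
  have hbig : 2 * ((L : ℝ) + 2) < c * M := by
    have h1 : 2 * ((L : ℝ) + 2) / c < M := lt_of_lt_of_le hM2 (by exact_mod_cast hMM2)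
    rw [div_lt_iff₀ hc] at h1
    linarith
  set W : ℕ := ⌊c * M⌋₊ with hW
  have hW1 : (W : ℝ) ≤ c * M := Nat.floor_le (by positivity)
  have hW2 : c * M < W + 1 := Nat.lt_floor_add_one _
  have hLW : L ≤ W := by
    have : (L : ℝ) ≤ W := by linarith
    exact_mod_cast this
  have hin : ∀ n : ℕ, M ≤ n → n ≤ M + W → pw n ∈ J := by
    intro n h1 h2
    by_contra h3
    apply h3
    by_contra h4
    have h5 := hcon n h1 (by
      have : (n : ℝ) ≤ M + W := by exact_mod_cast h2
      linarith)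
    exact h4 h5
  set T : ℕ := W - L with hT
  obtain ⟨i, j, hij, hjL, hclose⟩ := hL (fun k => pw (M + T + k))
  have key : ∀ t : ℕ, t ≤ T + i →
      ‖pw (M + T + i - t) - pw (M + T + j - t)‖ ≤ (2 / 3 : ℝ) ^ t *
        ‖pw (M + T + i) - pw (M + T + j)‖ := by
    intro t
    induction t with
    | zero => intro _; simp
    | succ t ih =>
      intro ht
      have ih' := ih (by omega)
      have hlt : ‖pw (M + T + i - t) - pw (M + T + j - t)‖ < δ := by
        refine lt_of_le_of_lt ih' (lt_of_le_of_lt ?_ hclose)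
        have h1 : (2 / 3 : ℝ) ^ t ≤ 1 := pow_le_one₀ (by norm_num) (by norm_num)
        nlinarith [norm_nonneg (pw (M + T + i) - pw (M + T + j))]
      have e1 : M + T + i - t = (M + T + i - (t + 1)) + 1 := by omega
      have e2 : M + T + j - t = (M + T + j - (t + 1)) + 1 := by omega
      have h2 := step (δ := δ) (x := pw (M + T + i - (t + 1))) (y := pw (M + T + j - (t + 1)))
        (x' := pw (M + T + i - t)) (y' := pw (M + T + j - t))
        (by rw [e1]; exact pw_succ _) (by rw [e2]; exact pw_succ _)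
        (hgap _ (hin _ (by omega) (by omega)) _ (hin _ (by omega) (by omega))) hlt
      calc _ ≤ 2 / 3 * ‖pw (M + T + i - t) - pw (M + T + j - t)‖ := h2
        _ ≤ 2 / 3 * ((2 / 3 : ℝ) ^ t * ‖pw (M + T + i) - pw (M + T + j)‖) := by
          exact mul_le_mul_of_nonneg_left ih' (by norm_num)
        _ = _ := by rw [pow_succ]; ring
  have h1 := key (T + i) le_rfl
  have e1 : M + T + i - (T + i) = M := by omega
  have e2 : M + T + j - (T + i) = M + (j - i) := by omega
  rw [e1, e2] at h1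
  have h2 := hM1 M hMM1 (j - i) (by omega) (by omega)
  rw [← norm_neg, neg_sub] at h2
  have h3 : ‖pw (M + T + i) - pw (M + T + j)‖ ≤ 1 / 2 := by
    have := AddCircle.norm_le_half_period (1 : ℝ) (x := pw (M + T + i) - pw (M + T + j)) one_ne_zero
    simpa using this
  have h4 : (2 / 3 : ℝ) ^ (T + i) ≤ (2 / 3 : ℝ) ^ (c / 2 * M) := by
    rw [← Real.rpow_natCast]
    apply Real.rpow_le_rpow_of_exponent_ge (by norm_num) (by norm_num)
    push_cast
    have h5 : (T : ℝ) = W - L := by rw [hT]; push_cast [Nat.cast_sub hLW]; ring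
    have h6 : (0 : ℝ) ≤ i := by positivity
    linarith
  have h5 : (0 : ℝ) < (2 / 3 : ℝ) ^ (T + i) := by positivity
  have h6 : (0 : ℝ) < (2 / 3 : ℝ) ^ (c / 2 * M) := by positivity
  nlinarith

end Pool.Agent.Helper3.TH
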